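import Pool.Agent.Helper40.CN.HX

/-!
# CN, part CHAIN
-/

set_option autoImplicit false

namespace Pool.Agent.Helper40.CN

universe u

open Subgroup
open scoped commutatorElement

section
variable {X Y : Type u} [Group X] [Group Y]

/-- right translations act by automorphisms on the group of maps -/
def sh (X Y : Type u) [Group X] [Group Y] : X →* MulAut (X → Y) where
  toFun h :=
    { toFun := fun f x => f (x * h)
      invFun := fun f x => f (x * h⁻¹)
      left_inv := fun f => by funext x; simp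
      right_inv := fun f => by funext x; simp
      map_mul' := fun f g => rfl }
  map_one' := by ext f x; simp
  map_mul' h h' := by ext f x; simp [mul_assoc]

theorem sh_apply (h : X) (f : X → Y) (x : X) : sh X Y h f x = f (x * h) := rfl

/-- the constants -/
def cst (X Y : Type u) [Group X] [Group Y] : Y →* SemidirectProduct (X → Y) X (sh X Y) :=
  SemidirectProduct.inl.comp (Pi.constMonoidHom X Y)

theorem cst_apply (c : Y) : cst X Y c = SemidirectProduct.inl (fun _ => c) := rfl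

theorem inr_conj (h : X) (f : X → Y) :
    (SemidirectProduct.inr h * SemidirectProduct.inl f * (SemidirectProduct.inr h)⁻¹ :
      SemidirectProduct (X → Y) X (sh X Y)) = SemidirectProduct.inl (fun x => f (x * h)) := by
  have := SemidirectProduct.inl_aut (φ := sh X Y) h f
  rw [map_inv] at this
  rw [← this]
  rfl

/-- normality can be tested on `inl` and `inr` -/
theorem map_inl_normal (R : Subgroup (X → Y)) (hR : R.Normal)
    (hsh : ∀ (h : X) f, f ∈ R → (fun x => f (x * h)) ∈ R) :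
    (R.map (SemidirectProduct.inl : (X → Y) →* SemidirectProduct (X → Y) X (sh X Y))).Normal := by
  constructor
  rintro _ ⟨f, hf, rfl⟩ g
  rw [← SemidirectProduct.inl_left_mul_inr_right g]
  refine ⟨g.left * (fun x => f (x * g.right)) * g.left⁻¹, hR.conj_mem _ (hsh _ _ hf) _, ?_⟩
  rw [map_mul, map_mul, map_inv, ← inr_conj]
  group

theorem lcs_mono {W : Type u} [Group W] {P P' : Subgroup W} (h : P ≤ P') (n : ℕ) :
    P.lowerCentralSeries n ≤ P'.lowerCentralSeries n := by
  induction n with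
  | zero => exact h
  | succ n ih => exact Subgroup.commutator_mono ih h

theorem nilp_of_map_le {W W0 : Type u} [Group W] [Group W0] (f : W →* W0)
    (hf : Function.Injective f) (P : Subgroup W) (R : Subgroup W0) (hR : Group.IsNilpotent R)
    (h : P.map f ≤ R) : Group.IsNilpotent P := by
  obtain ⟨n, hn⟩ := (Subgroup.isNilpotent_iff_lowerCentralSeries R).1 hR
  rw [Subgroup.isNilpotent_iff_lowerCentralSeries]
  refine ⟨n, ?_⟩
  have h1 : (P.lowerCentralSeries n).map f = ⊥ := by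
    rw [Subgroup.map_lowerCentralSeries, eq_bot_iff, ← hn]
    exact lcs_mono h n
  rw [Subgroup.map_eq_bot_iff, (MonoidHom.ker_eq_bot_iff f).2 hf] at h1
  exact le_bot_iff.1 h1

theorem pi_nilp (N : Subgroup Y) (hN : Group.IsNilpotent N) :
    Group.IsNilpotent (Subgroup.pi (Set.univ : Set X) (fun _ => N)) := by
  have h1 : Group.IsNilpotent (X → N) :=
    Group.isNilpotent_pi_of_bounded_class (Gs := fun _ : X => N) (Group.nilpotencyClass N)
      (fun _ => le_rfl)
  let f : (X → N) →* Subgroup.pi (Set.univ : Set X) (fun _ => N) :=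
    { toFun := fun g => ⟨fun x => (g x : Y), fun x _ => (g x).2⟩
      map_one' := rfl
      map_mul' := fun _ _ => rfl }
  refine Group.nilpotent_of_surjective f ?_
  rintro ⟨g, hg⟩
  exact ⟨fun x => ⟨g x, hg x trivial⟩, rfl⟩

end

theorem grp1 {W : Type u} [Group W] (a b : W) : a * (b * a)⁻¹ * a⁻¹ = b⁻¹ * a⁻¹ := by group

theorem grp2 {W : Type u} [Group W] (r a b : W) :
    r * (a * b) * r⁻¹ = (r * a * r⁻¹) * (r * b * r⁻¹) := by group

theorem grp3 {W : Type u} [Group W] (c a b : W) :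
    c * ((a * c)⁻¹ * (b * c)) * c⁻¹ = a⁻¹ * b * 1 := by group

theorem grp4 {W : Type u} [Group W] (a b c d : W) :
    a * b * (b⁻¹ * (c * d) * b) = a * c * (d * b) := by group

section main
variable {G : Type u} [Group G] [TopologicalSpace G] [IsTopologicalGroup G]

theorem chain (hHX : S_HX.{u}) : S_CHAIN.{u} := by
  intro G _ _ _ A N _ _ k hnil
  set X := Fin k → N with hX
  set Y := G ⧸ A with hY
  let W0 := SemidirectProduct (X → Y) X (sh X Y)
  let inl : (X → Y) →* W0 := SemidirectProduct.inl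
  let inr : X →* W0 := SemidirectProduct.inr
  let co : Fin k → X → Y := fun i u => (QuotientGroup.mk ((u i : N) : G) : G ⧸ A)
  let T : Set W0 := (Set.range (cst X Y) ∪ Set.range inr) ∪ Set.range (fun i => inl (co i))
  let Wg : Subgroup W0 := Subgroup.closure T
  let C : Subgroup Wg := (cst X Y).range.subgroupOf Wg
  let X' : Subgroup Wg := inr.range.subgroupOf Wg
  let S : Set Wg := {s | ∃ i, (s : W0) = inl (co i)}
  have hcstW : ∀ c, cst X Y c ∈ Wg := fun c =>
    Subgroup.subset_closure (Or.inl (Or.inl ⟨c, rfl⟩))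
  have hinrW : ∀ h, inr h ∈ Wg := fun h => Subgroup.subset_closure (Or.inl (Or.inr ⟨h, rfl⟩))
  have hcoW : ∀ i, inl (co i) ∈ Wg := fun i => Subgroup.subset_closure (Or.inr ⟨i, rfl⟩)
  have hgen : Subgroup.closure ((C : Set Wg) ∪ (X' : Set Wg) ∪ S) = ⊤ := by
    have e : ((C : Set Wg) ∪ (X' : Set Wg) ∪ S) = ((↑) : Wg → W0) ⁻¹' T := by
      ext x
      constructor
      · rintro ((hx | hx) | ⟨i, hx⟩)
        · exact Or.inl (Or.inl hx)
        · exact Or.inl (Or.inr hx)
        · exact Or.inr ⟨i, hx.symm⟩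
      · rintro ((hx | hx) | ⟨i, hx⟩)
        · exact Or.inl (Or.inl hx)
        · exact Or.inl (Or.inr hx)
        · exact Or.inr ⟨i, hx.symm⟩
    rw [e]
    exact Subgroup.closure_closure_coe_preimage
  have hcomm : ∀ c ∈ C, ∀ x ∈ X', c * x = x * c := by
    rintro ⟨c, hc⟩ ⟨c', rfl⟩ ⟨x, hx⟩ ⟨h, rfl⟩
    apply Subtype.ext
    change cst X Y c' * inr h = inr h * cst X Y c'
    have := inr_conj (Y := Y) h (fun _ => c')
    rw [cst_apply]
    exact (mul_inv_eq_iff_eq_mul.1 this).symm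
  have hS : ∀ s ∈ S, ∀ x ∈ X', s⁻¹ * (x * s * x⁻¹) ∈ C := by
    rintro ⟨s, hs⟩ ⟨i, hsi⟩ ⟨x, hx⟩ ⟨h, hxh⟩
    refine ⟨(QuotientGroup.mk ((h i : N) : G) : G ⧸ A), ?_⟩
    change cst X Y _ = s⁻¹ * (x * s * x⁻¹)
    change s = _ at hsi
    change inr h = x at hxh
    rw [hsi, ← hxh]
    change _ = (inl (co i))⁻¹ * (inr h * inl (co i) * (inr h)⁻¹)
    have e := inr_conj h (co i)
    change inr h * inl (co i) * (inr h)⁻¹ = _ at e
    rw [e, cst_apply, ← map_inv]
    change _ = inl _ * inl _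
    rw [← map_mul]
    congr 1
    funext u
    change _ = (co i u)⁻¹ * co i (u * h)
    change _ = (QuotientGroup.mk ((u i : N) : G) : G ⧸ A)⁻¹ *
      (QuotientGroup.mk (((u i : N) : G) * ((h i : N) : G)) : G ⧸ A)
    rw [QuotientGroup.mk_mul, inv_mul_cancel_left]
  -- nilpotency
  let Nb : Subgroup Y := N.map (QuotientGroup.mk' A)
  have hNb : Nb.Normal := Subgroup.Normal.map inferInstance _ (QuotientGroup.mk'_surjective A)
  let R : Subgroup (X → Y) := Subgroup.pi (Set.univ : Set X) (fun _ => Nb)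
  have hRn : R.Normal := by
    constructor
    intro f hf g x hx
    exact hNb.conj_mem _ (hf x hx) _
  have hRnil : Group.IsNilpotent (R.map inl) := by
    have h0 : Group.IsNilpotent R := pi_nilp Nb hnil
    exact Group.nilpotent_of_surjective (inl.subgroupMap R) (inl.subgroupMap_surjective R)
  have hRmn : (R.map inl).Normal := map_inl_normal R hRn (fun h f hf x _ => hf _ trivial)
  have hPR : (Subgroup.normalClosure S).map Wg.subtype ≤ R.map inl := by
    rw [Subgroup.map_le_iff_le_comap]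
    have : ((R.map inl).comap Wg.subtype).Normal := inferInstance
    refine Subgroup.normalClosure_le_normal ?_
    rintro ⟨s, hs⟩ ⟨i, hsi⟩
    refine ⟨co i, ?_, hsi.symm⟩
    intro u _
    exact Subgroup.mem_map_of_mem _ (u i).2
  have hPnil : Group.IsNilpotent (Subgroup.normalClosure S) :=
    nilp_of_map_le Wg.subtype (Subgroup.subtype_injective _) _ _ hRnil hPR
  obtain ⟨D, hD⟩ := hHX Wg C X' S hgen hcomm hS hPnil
  set P : Subgroup Wg := Subgroup.normalClosure S with hP
  set H : Subgroup Wg := Subgroup.normalClosure (S ∪ (X' : Set Wg)) with hH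
  have hPn : P.Normal := Subgroup.normalClosure_normal
  have hHn : H.Normal := Subgroup.normalClosure_normal
  have hLn : ∀ j, (iterComm P H j).Normal := iterComm_normal P H
  have hLa : Antitone (iterComm P H) := iterComm_anti P H
  let mk : (X → G) → (X → Y) := fun ψ u => (QuotientGroup.mk (ψ u) : G ⧸ A)
  let cW : Y → Wg := fun c => ⟨cst X Y c, hcstW c⟩
  -- the chain
  let Q : ℕ → Subgroup (X → G) := fun j =>
    { carrier := {ψ | Continuous ψ ∧ ∃ c : Y, ∃ l : Wg, l ∈ iterComm P H (D - j) ∧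
        (l : W0) = inl (mk ψ) * cst X Y c}
      mul_mem' := by
        rintro ψ1 ψ2 ⟨h1, c1, l1, hl1, e1⟩ ⟨h2, c2, l2, hl2, e2⟩
        refine ⟨h1.mul h2, c2 * c1, l1 * ((cW c1)⁻¹ * l2 * (cW c1)), ?_, ?_⟩
        · refine mul_mem hl1 ?_
          have := (hLn (D - j)).conj_mem _ hl2 (cW c1)⁻¹
          rwa [inv_inv] at this
        · have e3 : mk (ψ1 * ψ2) = mk ψ1 * mk ψ2 := rfl
          change (l1 : W0) * ((cst X Y c1)⁻¹ * (l2 : W0) * cst X Y c1) = _
          rw [e1, e2, e3, map_mul, map_mul]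
          exact grp4 _ _ _ _
      one_mem' := by
        refine ⟨continuous_const, 1, 1, one_mem _, ?_⟩
        rw [map_one]
        have : mk 1 = 1 := rfl
        rw [this, map_one]
        exact (mul_one (1 : W0)).symm
      inv_mem' := by
        rintro ψ ⟨h1, c, l, hl, e⟩
        refine ⟨h1.inv, c⁻¹, cW c * l⁻¹ * (cW c)⁻¹, (hLn (D - j)).conj_mem _ (inv_mem hl) _, ?_⟩
        have e3 : mk (ψ⁻¹) = (mk ψ)⁻¹ := rfl
        change cst X Y c * (l : W0)⁻¹ * (cst X Y c)⁻¹ = _
        rw [e, e3, map_inv, map_inv]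
        exact grp1 _ _ }
  have hmem : ∀ j ψ, ψ ∈ Q j ↔ Continuous ψ ∧ ∃ c : Y, ∃ l : Wg, l ∈ iterComm P H (D - j) ∧
        (l : W0) = inl (mk ψ) * cst X Y c := fun j ψ => Iff.rfl
  have hc0 : ∀ ψ ∈ Q 0, ∀ u v, (ψ u)⁻¹ * ψ v ∈ A := by
    rintro ψ ⟨h1, c, l, hl, e⟩ u v
    have hl' : l ∈ iterComm P H D := hl
    rw [hD, Subgroup.mem_bot] at hl'
    rw [hl'] at e
    have e2 : inl (mk ψ * fun _ => c) = 1 := by
      rw [map_mul]
      exact e.symm
    have e4 : (mk ψ * fun _ => c) = 1 := SemidirectProduct.inl_injective (e2.trans (map_one inl).symm)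
    have e5 : ∀ u, mk ψ u = c⁻¹ := fun u => by
      have := congrFun e4 u
      exact eq_inv_of_mul_eq_one_left this
    rw [← QuotientGroup.eq]
    exact (e5 u).trans (e5 v).symm
  refine ⟨D, Q, ?_, ?_, hc0, ?_, ?_, ?_, ?_⟩
  · intro i j hij ψ hψ
    obtain ⟨h1, c, l, hl, e⟩ := hψ
    exact ⟨h1, c, l, hLa (Nat.sub_le_sub_left hij D) hl, e⟩
  · intro j ψ hψ
    exact hψ.1
  · rintro j ψ ⟨h1, c, l, hl, e⟩ h
    have hx : (⟨inr h, hinrW h⟩ : Wg) ∈ H :=
      Subgroup.subset_normalClosure (Or.inr ⟨h, rfl⟩)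
    set x : Wg := ⟨inr h, hinrW h⟩ with hxdef
    have h2 : l⁻¹ * (x * l * x⁻¹) ∈ iterComm P H (D - j) := by
      have h3 : ⁅l⁻¹, x⁆ ∈ iterComm P H (D - (j + 1) + 1) :=
        Subgroup.commutator_mem_commutator (inv_mem hl) hx
      have h4 : l⁻¹ * (x * l * x⁻¹) = ⁅l⁻¹, x⁆ := by
        rw [commutatorElement_def]; group
      rw [h4]
      exact hLa (by omega) h3
    refine ⟨h1.inv.mul (h1.comp (continuous_mul_const h)), 1,
      cW c * (l⁻¹ * (x * l * x⁻¹)) * (cW c)⁻¹, (hLn (D - j)).conj_mem _ h2 _, ?_⟩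
    change cst X Y c * ((l : W0)⁻¹ * (inr h * (l : W0) * (inr h)⁻¹)) * (cst X Y c)⁻¹ = _
    have e6 : mk (ψ⁻¹ * shift h ψ) = (mk ψ)⁻¹ * (fun x => mk ψ (x * h)) := rfl
    have e7 : inr h * inl (mk ψ) * (inr h)⁻¹ = inl (fun x => mk ψ (x * h)) := inr_conj h (mk ψ)
    have e8 : inr h * cst X Y c * (inr h)⁻¹ = cst X Y c := inr_conj h (fun _ => c)
    have e9 : inr h * (inl (mk ψ) * cst X Y c) * (inr h)⁻¹ =
        (inr h * inl (mk ψ) * (inr h)⁻¹) * (inr h * cst X Y c * (inr h)⁻¹) := grp2 _ _ _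
    rw [e, e9, e7, e8, e6, map_mul, map_inv, map_one]
    exact grp3 _ _ _
  · intro ψ hψ h
    refine ⟨hψ.1.inv.mul (hψ.1.comp (continuous_mul_const h)), 1, 1, one_mem _, ?_⟩
    have e : mk (ψ⁻¹ * shift h ψ) = 1 := by
      funext u
      change (QuotientGroup.mk ((ψ u)⁻¹ * ψ (u * h)) : G ⧸ A) = 1
      rw [QuotientGroup.eq_one_iff]
      exact hc0 ψ hψ u _
    rw [e, map_one, map_one]
    exact (mul_one (1 : W0)).symm
  · intro c
    refine ⟨continuous_const, (QuotientGroup.mk c : G ⧸ A)⁻¹, 1, one_mem _, ?_⟩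
    have e : inl (mk fun _ => c) = cst X Y (QuotientGroup.mk c : G ⧸ A) := rfl
    rw [e, map_inv, mul_inv_cancel]
    rfl
  · intro i
    refine ⟨continuous_subtype_val.comp (continuous_apply i), 1, ⟨inl (co i), hcoW i⟩, ?_, ?_⟩
    · rw [Nat.sub_self]
      exact Subgroup.subset_normalClosure ⟨i, rfl⟩
    · rw [map_one, mul_one]

end main

end Pool.Agent.Helper40.CN
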