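import Mathlib

/-!
# Blueprint CN (MP_349281_al): strong conciseness in virtually abelian-by-nilpotent profinite groups.
Definitions.
-/

set_option autoImplicit false

namespace Pool.Agent.Helper40.CN

universe u

/-- The set of values of the word `w` in `G`. -/
def wordValues {k : ℕ} (w : FreeGroup (Fin k)) (G : Type u) [Group G] : Set G :=
  Set.range fun g : Fin k → G => FreeGroup.lift g w

/-- The verbal subgroup `w(G)` (generated as an abstract group by the values of `w`). -/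
def verbal {k : ℕ} (w : FreeGroup (Fin k)) (G : Type u) [Group G] : Subgroup G :=
  Subgroup.closure (wordValues w G)

/-- `G` has an open subgroup `H` with a closed normal abelian subgroup `A` such that `H/A` is
nilpotent. -/
def VirtAbByNilp (G : Type u) [Group G] [TopologicalSpace G] : Prop :=
  ∃ (H : Subgroup G) (A : Subgroup H) (_ : A.Normal), IsOpen (H : Set G) ∧ IsClosed (A : Set H) ∧
    (∀ a ∈ A, ∀ b ∈ A, a * b = b * a) ∧ Group.IsNilpotent (H ⧸ A)

/-- Right translation of a map. -/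
def shift {X Y : Type u} [Mul X] (h : X) (f : X → Y) : X → Y := fun x => f (x * h)

/-- A finite chain of subgroups of the group of maps `N^k → G`. -/
structure IsChain {G : Type u} [Group G] [TopologicalSpace G] (A N : Subgroup G) (k : ℕ) (D : ℕ)
    (Q : ℕ → Subgroup ((Fin k → N) → G)) : Prop where
  mono : Monotone Q
  cont : ∀ j, ∀ ψ ∈ Q j, Continuous ψ
  const0 : ∀ ψ ∈ Q 0, ∀ u v, (ψ u)⁻¹ * ψ v ∈ A
  diff : ∀ j, ∀ ψ ∈ Q (j + 1), ∀ h, ψ⁻¹ * shift h ψ ∈ Q j
  diff0 : ∀ ψ ∈ Q 0, ∀ h, ψ⁻¹ * shift h ψ ∈ Q 0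
  const : ∀ c : G, (fun _ => c) ∈ Q D
  coord : ∀ i, (fun u => ((u i : N) : G)) ∈ Q D

/-- The operation on sets of maps induced by multiplication with `ψ⁻¹` followed by a difference. -/
def der {𝒢 : Type u} [Group 𝒢] (Q0 : Subgroup 𝒢) (σ : 𝒢 → 𝒢) (S : Set 𝒢) : Set 𝒢 :=
  {φ | φ ∈ S ∧ φ ∉ Q0} ∪ σ '' {φ | φ ∈ S ∧ φ ∉ Q0}

/-- Left translate of a set. -/
def tr {𝒢 : Type u} [Group 𝒢] (ψ : 𝒢) (S : Set 𝒢) : Set 𝒢 := (fun φ => ψ⁻¹ * φ) '' S

/-- The functions `N^k → M` which are sums of functions `u ↦ ψ(u) • m(u_i)`, `ψ ∈ S1`, and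
`u ↦ ψ(u) • b`, `ψ ∈ S0`, `b ∈ M`. -/
def FF {G : Type u} [Group G] (N : Subgroup G) {k : ℕ} {M : Type u} [AddCommGroup M]
    [DistribMulAction G M] (m : G → M) (S1 S0 : Set ((Fin k → N) → G)) :
    AddSubgroup ((Fin k → N) → M) :=
  AddSubgroup.closure ({f | ∃ ψ ∈ S1, ∃ i : Fin k, f = fun u => ψ u • m (u i)} ∪
    {f | ∃ ψ ∈ S0, ∃ b : M, f = fun u => ψ u • b})

/-- A derivation `m : G → M` such that `A` acts trivially on `M` and `m` is injective on `A`. -/
structure IsKK {G : Type u} [Group G] (A : Subgroup G) {M : Type u} [AddCommGroup M]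
    [DistribMulAction G M] (m : G → M) : Prop where
  der : ∀ x y, m (x * y) = m x + x • m y
  triv : ∀ a ∈ A, ∀ b : M, a • b = b
  inj : ∀ a ∈ A, m a = 0 → a = 1

/-- Iterated commutator subgroups `[P, H, ..., H]`. -/
def iterComm {W : Type u} [Group W] (P H : Subgroup W) : ℕ → Subgroup W
  | 0 => P
  | n + 1 => ⁅iterComm P H n, H⁆

/-- every normal subgroup is the normal closure of a finite set -/
def MaxN (N : Type u) [Group N] : Prop :=
  ∀ K : Subgroup N, K.Normal → ∃ F : Set N, F.Finite ∧ K = Subgroup.normalClosure F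

/-- `U` is invariant under `Δ` -/
def DInv {Γ : Type u} [Group Γ] (Δ : Subgroup Γ) {V : Type u} [AddCommGroup V]
    [DistribMulAction Γ V] (U : AddSubgroup V) : Prop := ∀ δ ∈ Δ, ∀ v ∈ U, δ • v ∈ U

/-- `U` is finitely generated over `Δ` -/
def DFG {Γ : Type u} [Group Γ] (Δ : Subgroup Γ) {V : Type u} [AddCommGroup V]
    [DistribMulAction Γ V] (U : AddSubgroup V) : Prop :=
  ∃ Y : Set V, Y.Finite ∧ U = AddSubgroup.closure {v | ∃ δ ∈ Δ, ∃ y ∈ Y, v = δ • y}

/-- `V` is noetherian over `Δ` in the sense that `Δ`-invariant subgroups of finitely generated ones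
are finitely generated -/
def NN {Γ : Type u} [Group Γ] (Δ : Subgroup Γ) (V : Type u) [AddCommGroup V]
    [DistribMulAction Γ V] : Prop :=
  ∀ U' U : AddSubgroup V, U' ≤ U → DInv Δ U' → DFG Δ U → DFG Δ U'

end Pool.Agent.Helper40.CN
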