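import Pool.Agent.Helper40.CN.Spec

/-!
# CN, part HC: P. Hall's nilpotency criterion in relative form
-/

set_option autoImplicit false

namespace Pool.Agent.Helper40.CN

universe u

open Subgroup

section
variable {W : Type u} [Group W]

theorem iterComm_normal (P H : Subgroup W) [hP : P.Normal] [H.Normal] (n : ℕ) :
    (iterComm P H n).Normal := by
  induction n with
  | zero => exact hP
  | succ n ih => exact Subgroup.commutator_normal _ _

theorem iterComm_anti (P H : Subgroup W) [P.Normal] [H.Normal] : Antitone (iterComm P H) := by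
  refine antitone_nat_of_succ_le fun n => ?_
  have := iterComm_normal P H n
  exact Subgroup.commutator_le_left _ _

theorem three (A B H K : Subgroup W) [K.Normal] (h1 : ⁅⁅A, H⁆, B⁆ ≤ K) (h2 : ⁅A, ⁅B, H⁆⁆ ≤ K) :
    ⁅⁅A, B⁆, H⁆ ≤ K := by
  have key : (⁅⁅A, B⁆, H⁆).map (QuotientGroup.mk' K) = ⊥ := by
    rw [Subgroup.map_commutator, Subgroup.map_commutator]
    apply Subgroup.commutator_commutator_eq_bot_of_rotate
    · rw [← Subgroup.map_commutator, ← Subgroup.map_commutator, Subgroup.map_eq_bot_iff,
        QuotientGroup.ker_mk', Subgroup.commutator_comm]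
      exact h2
    · rw [← Subgroup.map_commutator, ← Subgroup.map_commutator, Subgroup.map_eq_bot_iff,
        QuotientGroup.ker_mk', Subgroup.commutator_comm H A]
      exact h1
  rwa [Subgroup.map_eq_bot_iff, QuotientGroup.ker_mk'] at key

theorem exists_pull (H K : Subgroup W) [H.Normal] [K.Normal] :
    ∃ K' : Subgroup W, K'.Normal ∧ ∀ X : Subgroup W, X ≤ K' ↔ ⁅X, H⁆ ≤ K := by
  have : (H.map (QuotientGroup.mk' K)).Normal :=
    Subgroup.Normal.map inferInstance _ (QuotientGroup.mk'_surjective K)
  refine ⟨(Subgroup.centralizer (H.map (QuotientGroup.mk' K) : Set (W ⧸ K))).comap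
    (QuotientGroup.mk' K), inferInstance, fun X => ?_⟩
  rw [← Subgroup.map_le_iff_le_comap, ← Subgroup.commutator_eq_bot_iff_le_centralizer,
    ← Subgroup.map_commutator, Subgroup.map_eq_bot_iff, QuotientGroup.ker_mk']

theorem iter_comm_le (H : Subgroup W) [H.Normal] (A B : Subgroup W)
    [A.Normal] [B.Normal] : ∀ (n : ℕ) (K : Subgroup W), K.Normal →
    (∀ s t, s + t = n → ⁅iterComm A H s, iterComm B H t⁆ ≤ K) →
    iterComm ⁅A, B⁆ H n ≤ K := by
  intro n
  induction n with
  | zero =>
    intro K _ h
    exact h 0 0 rfl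
  | succ n ih =>
    intro K hK h
    obtain ⟨K', hK', hX⟩ := exists_pull H K
    change ⁅iterComm ⁅A, B⁆ H n, H⁆ ≤ K
    rw [← hX]
    refine ih K' hK' fun s t hst => ?_
    rw [hX]
    refine three _ _ _ _ ?_ ?_
    · exact h (s + 1) t (by omega)
    · exact h s (t + 1) (by omega)

theorem iterComm_mono (H : Subgroup W) {A B : Subgroup W} (h : A ≤ B) (n : ℕ) :
    iterComm A H n ≤ iterComm B H n := by
  induction n with
  | zero => exact h
  | succ n ih => exact Subgroup.commutator_mono ih le_rfl

theorem iterComm_add (A H : Subgroup W) (a b : ℕ) :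
    iterComm A H (a + b) = iterComm (iterComm A H a) H b := by
  induction b with
  | zero => rfl
  | succ b ih =>
    change ⁅iterComm A H (a + b), H⁆ = ⁅iterComm (iterComm A H a) H b, H⁆
    rw [ih]

theorem lcs_eq (P : Subgroup W) (i : ℕ) :
    Subgroup.lowerCentralSeries P i = iterComm P P i := by
  induction i with
  | zero => rfl
  | succ i ih =>
    change ⁅Subgroup.lowerCentralSeries P i, P⁆ = ⁅iterComm P P i, P⁆
    rw [ih]

theorem hc : S_HC.{u} := by
  intro W _ P H _ _ hnil ⟨d, hd⟩
  have hstep : ∀ i, ∃ n, iterComm (iterComm P P i) H n ≤ iterComm P P (i + 1) := by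
    intro i
    induction i with
    | zero => exact ⟨d, hd⟩
    | succ i ih =>
      obtain ⟨n, hn⟩ := ih
      refine ⟨n + d, ?_⟩
      have := iterComm_normal P P i
      have := iterComm_normal P P (i + 1)
      have := iterComm_normal P P (i + 1 + 1)
      change iterComm ⁅iterComm P P i, P⁆ H (n + d) ≤ _
      refine iter_comm_le H _ _ (n + d) _ inferInstance fun s t hst => ?_
      rcases le_or_gt n s with hs | hs
      · refine le_trans (Subgroup.commutator_mono ((iterComm_anti _ H hs).trans hn)
          (iterComm_anti P H (Nat.zero_le t))) ?_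
        exact le_rfl
      · have ht : d ≤ t := by omega
        refine le_trans (Subgroup.commutator_mono (iterComm_anti _ H (Nat.zero_le s))
          ((iterComm_anti P H ht).trans hd)) ?_
        change ⁅iterComm P P i, ⁅P, P⁆⁆ ≤ _
        rw [Subgroup.commutator_comm]
        refine three _ _ _ _ ?_ ?_
        · rw [Subgroup.commutator_comm P]
          exact le_rfl
        · rw [Subgroup.commutator_comm P (iterComm P P i), Subgroup.commutator_comm]
          exact le_rfl
  have hall : ∀ i, ∃ D, iterComm P H D ≤ iterComm P P i := by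
    intro i
    induction i with
    | zero => exact ⟨0, le_rfl⟩
    | succ i ih =>
      obtain ⟨D, hD⟩ := ih
      obtain ⟨n, hn⟩ := hstep i
      refine ⟨D + n, ?_⟩
      rw [iterComm_add]
      exact (iterComm_mono H hD n).trans hn
  obtain ⟨c, hc⟩ := (Subgroup.isNilpotent_iff_lowerCentralSeries P).1 hnil
  obtain ⟨D, hD⟩ := hall c
  refine ⟨D, ?_⟩
  rw [eq_bot_iff]
  refine hD.trans ?_
  rw [← lcs_eq, hc]

end

end Pool.Agent.Helper40.CN
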