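import Pool.Agent.Helper40.CN.HC

/-!
# CN, part HX
-/

set_option autoImplicit false

namespace Pool.Agent.Helper40.CN

universe u

open Subgroup
open scoped commutatorElement

section
variable {W : Type u} [Group W]

/-- the elements commuting with `P` modulo `K` -/
def cmod (K : Subgroup W) [K.Normal] (P : Subgroup W) : Subgroup W :=
  (Subgroup.centralizer (P.map (QuotientGroup.mk' K) : Set (W ⧸ K))).comap (QuotientGroup.mk' K)

theorem mem_cmod {K : Subgroup W} [K.Normal] {P : Subgroup W} {w : W} :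
    w ∈ cmod K P ↔ ∀ p ∈ P, ((p * w : W) : W ⧸ K) = ((w * p : W) : W ⧸ K) := by
  unfold cmod
  rw [Subgroup.mem_comap, Subgroup.mem_centralizer_iff]
  constructor
  · intro h p hp
    exact h _ (Subgroup.mem_map_of_mem _ hp)
  · rintro h _ ⟨p, hp, rfl⟩
    exact h p hp

theorem cmod_normal (K : Subgroup W) [K.Normal] (P : Subgroup W) [P.Normal] :
    (cmod K P).Normal := by
  have : (P.map (QuotientGroup.mk' K)).Normal :=
    Subgroup.Normal.map inferInstance _ (QuotientGroup.mk'_surjective K)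
  unfold cmod
  infer_instance

theorem comm_le_of_cmod {K : Subgroup W} [K.Normal] {P X : Subgroup W} (h : X ≤ cmod K P) :
    ⁅P, X⁆ ≤ K := by
  rw [Subgroup.commutator_le]
  intro p hp x hx
  have h1 := mem_cmod.1 (h hx) p hp
  rw [← QuotientGroup.eq_one_iff, commutatorElement_def]
  have h2 : ((p * x * p⁻¹ * x⁻¹ : W) : W ⧸ K) = ((p * x : W) : W ⧸ K) * ((x * p : W) : W ⧸ K)⁻¹ := by
    rw [← QuotientGroup.mk_inv, ← QuotientGroup.mk_mul]
    congr 1
    group
  rw [h2, h1, mul_inv_cancel]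

theorem normal_of_gen {C X : Subgroup W} {S : Set W}
    (hgen : Subgroup.closure ((C : Set W) ∪ (X : Set W) ∪ S) = ⊤) {K P : Subgroup W}
    (hSP : S ⊆ P) (hC : ∀ c ∈ C, ∀ k ∈ K, c * k * c⁻¹ ∈ K) (hX : ∀ c ∈ X, ∀ k ∈ K, c * k * c⁻¹ ∈ K)
    (hP : ∀ c ∈ P, ∀ k ∈ K, c * k * c⁻¹ ∈ K) : K.Normal := by
  have key : ∀ (L : Subgroup W), (∀ c ∈ L, ∀ k ∈ K, c * k * c⁻¹ ∈ K) →
      L ≤ Subgroup.normalizer (K : Set W) := by
    intro L hL c hc
    rw [Subgroup.mem_normalizer_iff]
    intro k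
    constructor
    · intro hk
      exact hL c hc k hk
    · intro hk
      have := hL c⁻¹ (inv_mem hc) _ hk
      have e : c⁻¹ * (c * k * c⁻¹) * c⁻¹⁻¹ = k := by group
      rwa [e] at this
  have h1 : Subgroup.closure ((C : Set W) ∪ (X : Set W) ∪ S) ≤
      Subgroup.normalizer (K : Set W) := by
    rw [Subgroup.closure_le]
    rintro x ((hx | hx) | hx)
    · exact key C hC hx
    · exact key X hX hx
    · exact key P hP (hSP hx)
  rw [hgen] at h1
  exact Subgroup.normalizer_eq_top_iff.1 (top_le_iff.1 h1)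

theorem hx (h : S_HC.{u}) : S_HX.{u} := by
  intro W _ C X S hgen hcomm hS hnil
  set P := Subgroup.normalClosure S with hPdef
  set H := Subgroup.normalClosure (S ∪ (X : Set W)) with hHdef
  have hSP : S ⊆ (P : Set W) := Subgroup.subset_normalClosure
  have hPn : P.Normal := Subgroup.normalClosure_normal
  have hHn : H.Normal := Subgroup.normalClosure_normal
  have hP'n : (⁅P, P⁆ : Subgroup W).Normal := Subgroup.commutator_normal _ _
  have hP'P : ⁅P, P⁆ ≤ P := Subgroup.commutator_le_left _ _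
  set K : Subgroup W := (C ⊓ P) ⊔ ⁅P, P⁆ with hK
  have hKP : K ≤ P := sup_le inf_le_right hP'P
  have hmem : ∀ k ∈ K, ∃ a ∈ C ⊓ P, ∃ b ∈ (⁅P, P⁆ : Subgroup W), a * b = k := by
    intro k hk
    rw [hK] at hk
    exact Subgroup.mem_sup_of_normal_right.1 hk
  have hPab : ∀ p ∈ P, ∀ k ∈ P, ∃ b ∈ (⁅P, P⁆ : Subgroup W), p * k * p⁻¹ = b * k := by
    intro p hp k hk
    refine ⟨⁅p, k⁆, Subgroup.commutator_mem_commutator hp hk, ?_⟩
    rw [commutatorElement_def]
    group
  have hKn : K.Normal := by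
    refine normal_of_gen hgen hSP ?_ ?_ ?_
    · intro c hc k hk
      obtain ⟨a, ha, b, hb, rfl⟩ := hmem k hk
      have e : c * (a * b) * c⁻¹ = (c * a * c⁻¹) * (c * b * c⁻¹) := by group
      rw [e]
      exact mul_mem (Subgroup.mem_sup_left (Subgroup.mem_inf.2 ⟨mul_mem (mul_mem hc ha.1)
        (inv_mem hc), hPn.conj_mem _ ha.2 _⟩)) (Subgroup.mem_sup_right (hP'n.conj_mem _ hb _))
    · intro c hc k hk
      obtain ⟨a, ha, b, hb, rfl⟩ := hmem k hk
      have e : c * (a * b) * c⁻¹ = (c * a * c⁻¹) * (c * b * c⁻¹) := by group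
      have e2 : c * a * c⁻¹ = a := by rw [← hcomm a ha.1 c hc]; group
      rw [e, e2]
      exact mul_mem (Subgroup.mem_sup_left ha) (Subgroup.mem_sup_right (hP'n.conj_mem _ hb _))
    · intro c hc k hk
      obtain ⟨b, hb, e⟩ := hPab c hc k (hKP hk)
      rw [e]
      exact mul_mem (Subgroup.mem_sup_right hb) hk
  refine h W P H hnil ⟨2, ?_⟩
  have h1 : ⁅P, H⁆ ≤ K := by
    refine comm_le_of_cmod ?_
    have hn := cmod_normal K P
    refine Subgroup.normalClosure_le_normal ?_
    have hPP : P ≤ cmod K P := by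
      intro p hp
      rw [mem_cmod]
      intro q hq
      rw [QuotientGroup.eq]
      have e : (q * p)⁻¹ * (p * q) = ⁅p⁻¹, q⁻¹⁆ := by rw [commutatorElement_def]; group
      rw [e]
      exact Subgroup.mem_sup_right (Subgroup.commutator_mem_commutator (inv_mem hp) (inv_mem hq))
    rintro y (hy | hy)
    · exact hPP (hSP hy)
    · -- `P ≤ cmod K X`
      have hPX : P ≤ P ⊓ cmod K X := by
        have hn2 : (P ⊓ cmod K X).Normal := by
          refine normal_of_gen hgen hSP ?_ ?_ ?_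
          · intro c hc k hk
            refine Subgroup.mem_inf.2 ⟨hPn.conj_mem _ hk.1 _, ?_⟩
            rw [mem_cmod]
            intro x hx'
            have hk2 := mem_cmod.1 hk.2 x hx'
            have e1 : x * (c * k * c⁻¹) = c * (x * k) * c⁻¹ := by
              rw [← mul_assoc, ← mul_assoc, ← hcomm c hc x hx']
              group
            have e2 : c * k * c⁻¹ * x = c * (k * x) * c⁻¹ := by
              have := hcomm c⁻¹ (inv_mem hc) x hx'
              rw [mul_assoc, this]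
              group
            rw [e1, e2, QuotientGroup.mk_mul, QuotientGroup.mk_mul, hk2, ← QuotientGroup.mk_mul,
              ← QuotientGroup.mk_mul]
          · intro c hc k hk
            refine Subgroup.mem_inf.2 ⟨hPn.conj_mem _ hk.1 _, ?_⟩
            have e3 : ((c * k * c⁻¹ : W) : W ⧸ K) = (k : W ⧸ K) := by
              rw [QuotientGroup.mk_mul, mem_cmod.1 hk.2 c hc, ← QuotientGroup.mk_mul]
              congr 1
              group
            rw [mem_cmod]
            intro x hx'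
            calc ((x * (c * k * c⁻¹) : W) : W ⧸ K)
                = (x : W ⧸ K) * ((c * k * c⁻¹ : W) : W ⧸ K) := rfl
              _ = (x : W ⧸ K) * (k : W ⧸ K) := by rw [e3]
              _ = ((x * k : W) : W ⧸ K) := rfl
              _ = ((k * x : W) : W ⧸ K) := mem_cmod.1 hk.2 x hx'
              _ = (k : W ⧸ K) * (x : W ⧸ K) := rfl
              _ = ((c * k * c⁻¹ : W) : W ⧸ K) * (x : W ⧸ K) := by rw [e3]
              _ = ((c * k * c⁻¹ * x : W) : W ⧸ K) := rfl
          · intro c hc k hk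
            refine Subgroup.mem_inf.2 ⟨hPn.conj_mem _ hk.1 _, ?_⟩
            have e3 : ((c * k * c⁻¹ : W) : W ⧸ K) = (k : W ⧸ K) := by
              obtain ⟨b, hb, e⟩ := hPab c hc k hk.1
              rw [e, QuotientGroup.mk_mul, (QuotientGroup.eq_one_iff b).2
                (Subgroup.mem_sup_right hb), one_mul]
            rw [mem_cmod]
            intro x hx'
            calc ((x * (c * k * c⁻¹) : W) : W ⧸ K)
                = (x : W ⧸ K) * ((c * k * c⁻¹ : W) : W ⧸ K) := rfl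
              _ = (x : W ⧸ K) * (k : W ⧸ K) := by rw [e3]
              _ = ((x * k : W) : W ⧸ K) := rfl
              _ = ((k * x : W) : W ⧸ K) := mem_cmod.1 hk.2 x hx'
              _ = (k : W ⧸ K) * (x : W ⧸ K) := rfl
              _ = ((c * k * c⁻¹ : W) : W ⧸ K) * (x : W ⧸ K) := by rw [e3]
              _ = ((c * k * c⁻¹ * x : W) : W ⧸ K) := rfl
        refine Subgroup.normalClosure_le_normal ?_
        intro s hs
        refine Subgroup.mem_inf.2 ⟨hSP hs, ?_⟩
        rw [mem_cmod]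
        intro x hx'
        rw [eq_comm, QuotientGroup.eq]
        have e : (s * x)⁻¹ * (x * s) = x⁻¹ * (s⁻¹ * (x * s * x⁻¹)) * x := by group
        rw [e]
        have h3 : s⁻¹ * (x * s * x⁻¹) ∈ C ⊓ P :=
          Subgroup.mem_inf.2 ⟨hS s hs x hx', mul_mem (inv_mem (hSP hs)) (hPn.conj_mem _ (hSP hs) _)⟩
        have h4 := hKn.conj_mem _ (Subgroup.mem_sup_left h3 : _ ∈ K) x⁻¹
        rwa [inv_inv] at h4
      rw [SetLike.mem_coe, mem_cmod]
      intro p hp
      exact (mem_cmod.1 (hPX hp).2 y hy).symm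
  have h2 : ⁅K, H⁆ ≤ ⁅P, P⁆ := by
    refine comm_le_of_cmod ?_
    have hn := cmod_normal ⁅P, P⁆ K
    refine Subgroup.normalClosure_le_normal ?_
    rintro y (hy | hy)
    · rw [SetLike.mem_coe, mem_cmod]
      intro k hk
      rw [QuotientGroup.eq]
      have e : (k * y)⁻¹ * (y * k) = ⁅y⁻¹, k⁻¹⁆ := by rw [commutatorElement_def]; group
      rw [e]
      exact Subgroup.commutator_mem_commutator (inv_mem (hSP hy)) (inv_mem (hKP hk))
    · rw [SetLike.mem_coe, mem_cmod]
      intro k hk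
      obtain ⟨a, ha, b, hb, rfl⟩ := hmem k hk
      have e1 : ((a * b : W) : W ⧸ ⁅P, P⁆) = (a : W ⧸ ⁅P, P⁆) := by
        rw [QuotientGroup.mk_mul, (QuotientGroup.eq_one_iff b).2 hb, mul_one]
      calc ((a * b * y : W) : W ⧸ ⁅P, P⁆)
          = ((a * b : W) : W ⧸ ⁅P, P⁆) * (y : W ⧸ ⁅P, P⁆) := rfl
        _ = (a : W ⧸ ⁅P, P⁆) * (y : W ⧸ ⁅P, P⁆) := by rw [e1]
        _ = ((a * y : W) : W ⧸ ⁅P, P⁆) := rfl
        _ = ((y * a : W) : W ⧸ ⁅P, P⁆) := by rw [hcomm a ha.1 y hy]
        _ = (y : W ⧸ ⁅P, P⁆) * (a : W ⧸ ⁅P, P⁆) := rfl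
        _ = (y : W ⧸ ⁅P, P⁆) * ((a * b : W) : W ⧸ ⁅P, P⁆) := by rw [e1]
        _ = ((y * (a * b) : W) : W ⧸ ⁅P, P⁆) := rfl
  exact (Subgroup.commutator_mono h1 le_rfl).trans h2

end

end Pool.Agent.Helper40.CN
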