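import Pool.Agent.Helper40.CN.Defs

/-!
# Blueprint CN (MP_349281_al): statements of the parts
-/

set_option autoImplicit false

namespace Pool.Agent.Helper40.CN

universe u

/-! ## A. the set of values is finite -/

/-- A1. A continuous map with fewer than continuum many values is constant on some open set. -/
def S_CANT : Prop := ∀ (X : Type u) [TopologicalSpace X] [CompactSpace X] [T2Space X]
  [TotallyDisconnectedSpace X] [Nonempty X] (Y : Type u) [TopologicalSpace Y] [T2Space Y]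
  (E : X → Y), Continuous E → Cardinal.mk (Set.range E) < Cardinal.continuum →
  ∃ O : Set X, IsOpen O ∧ O.Nonempty ∧ ∃ y, ∀ x ∈ O, E x = y

/-- A2. -/
def S_DIFF : Prop := ∀ (X : Type u) [Group X] [TopologicalSpace X] [IsTopologicalGroup X]
  [CompactSpace X] [T2Space X] [TotallyDisconnectedSpace X] (Y : Type u) [Group Y]
  [TopologicalSpace Y] [T2Space Y] (E : X → Y), Continuous E →
  Cardinal.mk (Set.range E) < Cardinal.continuum →
  (∀ h : X, (Set.range fun x => (E x)⁻¹ * E (x * h)).Finite) → (Set.range E).Finite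

/-- A3. values have finite conjugacy classes -/
def S_FCC : Prop := ∀ (G : Type u) [Group G] [TopologicalSpace G] [IsTopologicalGroup G]
  [CompactSpace G] [T2Space G] [TotallyDisconnectedSpace G] (k : ℕ) (w : FreeGroup (Fin k)),
  Cardinal.mk (wordValues w G) < Cardinal.continuum →
  ∀ v ∈ wordValues w G, (Set.range fun x : G => x * v * x⁻¹).Finite

/-- A4. (Kaloujnine-Krasner) -/
def S_KK : Prop := ∀ (G : Type u) [Group G] (A : Subgroup G) [A.Normal],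
  (∀ a ∈ A, ∀ b ∈ A, a * b = b * a) →
  ∃ (M : Type u) (_ : AddCommGroup M) (_ : DistribMulAction G M) (m : G → M), IsKK A m

/-- A5. (P. Hall) -/
def S_HC : Prop := ∀ (W : Type u) [Group W] (P H : Subgroup W) [P.Normal] [H.Normal],
  Group.IsNilpotent P → (∃ d, iterComm P H d ≤ ⁅P, P⁆) → ∃ D, iterComm P H D = ⊥

/-- A6. -/
def S_HX : Prop := ∀ (W : Type u) [Group W] (C X : Subgroup W) (S : Set W),
  Subgroup.closure ((C : Set W) ∪ (X : Set W) ∪ S) = ⊤ →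
  (∀ c ∈ C, ∀ x ∈ X, c * x = x * c) → (∀ s ∈ S, ∀ x ∈ X, s⁻¹ * (x * s * x⁻¹) ∈ C) →
  Group.IsNilpotent (Subgroup.normalClosure S) →
  ∃ D, iterComm (Subgroup.normalClosure S) (Subgroup.normalClosure (S ∪ (X : Set W))) D = ⊥

/-- A7. existence of the chain -/
def S_CHAIN : Prop := ∀ (G : Type u) [Group G] [TopologicalSpace G] [IsTopologicalGroup G]
  (A N : Subgroup G) [A.Normal] [N.Normal] (k : ℕ),
  Group.IsNilpotent (N.map (QuotientGroup.mk' A)) →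
  ∃ (D : ℕ) (Q : ℕ → Subgroup ((Fin k → N) → G)), IsChain A N k D Q

/-- A8. the combinatorial induction -/
def S_PC : Prop := ∀ (𝒢 : Type u) [Group 𝒢] (D : ℕ) (Q : ℕ → Subgroup 𝒢) (Sh : Set (𝒢 → 𝒢)),
  Monotone Q → (∀ σ ∈ Sh, ∀ j, ∀ ψ ∈ Q (j + 1), ψ⁻¹ * σ ψ ∈ Q j) →
  (∀ σ ∈ Sh, ∀ ψ ∈ Q 0, ψ⁻¹ * σ ψ ∈ Q 0) →
  ∀ Pred : Set 𝒢 → Set 𝒢 → Prop, Pred ∅ ∅ →
  (∀ S1 S0 : Set 𝒢, S1.Finite → S0.Finite → S1 ⊆ Q D → S0 ⊆ Q D → ∀ ψ ∈ Q D,
    (∀ σ ∈ Sh, ∀ R : Set 𝒢, R.Finite → R ⊆ Q D → (S1 = ∅ → R = ∅) →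
      Pred (der (Q 0) σ (tr ψ S1)) (der (Q 0) σ (tr ψ S0) ∪ R)) → Pred S1 S0) →
  ∀ S1 S0 : Set 𝒢, S1.Finite → S0.Finite → S1 ⊆ Q D → S0 ⊆ Q D → Pred S1 S0

/-- A9. the functions in `FF`: multiplication by `ψ⁻¹` -/
def S_FB : Prop := ∀ (G : Type u) [Group G] (N : Subgroup G) (k : ℕ) (M : Type u) [AddCommGroup M]
  [DistribMulAction G M] (m : G → M) (S1 S0 : Set ((Fin k → N) → G)) (ψ : (Fin k → N) → G),
  ∀ f ∈ FF N m S1 S0, (fun u => (ψ u)⁻¹ • f u) ∈ FF N m (tr ψ S1) (tr ψ S0)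

/-- A10. the functions in `FF`: differences -/
def S_FD : Prop := ∀ (G : Type u) [Group G] (A N : Subgroup G) (k : ℕ) (M : Type u)
  [AddCommGroup M] [DistribMulAction G M] (m : G → M), IsKK A m →
  ∀ (Q0 : Subgroup ((Fin k → N) → G)), (∀ ψ ∈ Q0, ∀ u v, (ψ u)⁻¹ * ψ v ∈ A) →
  ∀ (S1 S0 : Set ((Fin k → N) → G)) (h : Fin k → N), ∀ f ∈ FF N m S1 S0,
  (fun u => f (u * h) - f u) ∈ FF N m (der Q0 (shift h) S1)
    (der Q0 (shift h) S0 ∪ {ρ | ∃ ψ ∈ S1, ∃ i : Fin k, ρ = fun u => ψ (u * h) * (u i : G)})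

/-- A11. -/
def S_PET : Prop := ∀ (G : Type u) [Group G] [TopologicalSpace G] [IsTopologicalGroup G]
  [CompactSpace G] [T2Space G] [TotallyDisconnectedSpace G] (A N : Subgroup G) [A.Normal]
  [N.Normal], IsOpen (N : Set G) → (∀ a ∈ A, ∀ b ∈ A, a * b = b * a) →
  ∀ (k D : ℕ) (Q : ℕ → Subgroup ((Fin k → N) → G)), IsChain A N k D Q →
  ∀ (M : Type u) [AddCommGroup M] [DistribMulAction G M] (m : G → M), IsKK A m →
  ∀ S1 S0 : Set ((Fin k → N) → G), S1.Finite → S0.Finite → S1 ⊆ Q D → S0 ⊆ Q D →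
  ∀ E : (Fin k → N) → G, Continuous E → (∀ u, E u ∈ A) →
  (∀ u, (Set.range fun x : G => x * E u * x⁻¹).Finite) →
  Cardinal.mk (Set.range E) < Cardinal.continuum → (fun u => m (E u)) ∈ FF N m S1 S0 →
  (Set.range E).Finite

/-- A12. the virtually nilpotent case -/
def S_T1 : Prop := ∀ (G : Type u) [Group G] [TopologicalSpace G] [IsTopologicalGroup G]
  [CompactSpace G] [T2Space G] [TotallyDisconnectedSpace G] (A N : Subgroup G) [A.Normal]
  [N.Normal], IsOpen (N : Set G) → IsClosed (A : Set G) →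
  ∀ (k D : ℕ) (Q : ℕ → Subgroup ((Fin k → N) → G)), IsChain A N k D Q →
  ∀ j, ∀ ψ ∈ Q j, Cardinal.mk (Set.range fun u => (QuotientGroup.mk (ψ u) : G ⧸ A)) <
    Cardinal.continuum → (Set.range fun u => (QuotientGroup.mk (ψ u) : G ⧸ A)).Finite

/-- A13. the expression of a word map -/
def S_WX : Prop := ∀ (G : Type u) [Group G] (A N : Subgroup G) (k : ℕ)
  (Q : Subgroup ((Fin k → N) → G)), (∀ c : G, (fun _ => c) ∈ Q) →
  (∀ i, (fun u => ((u i : N) : G)) ∈ Q) → ∀ (M : Type u) [AddCommGroup M] [DistribMulAction G M]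
  (m : G → M), IsKK A m → ∀ (w : FreeGroup (Fin k)) (g : Fin k → G),
  (fun u : Fin k → N => FreeGroup.lift (fun i => g i * (u i : G)) w) ∈ Q ∧
  ∃ S1 S0 : Set ((Fin k → N) → G), S1.Finite ∧ S0.Finite ∧ S1 ⊆ Q ∧ S0 ⊆ Q ∧
    (fun u : Fin k → N => m (FreeGroup.lift (fun i => g i * (u i : G)) w)) ∈ FF N m S1 S0

/-- A14. uniform local constancy -/
def S_UNI : Prop := ∀ (G : Type u) [Group G] [TopologicalSpace G] [IsTopologicalGroup G]
  [CompactSpace G] [T2Space G] [TotallyDisconnectedSpace G] (k : ℕ) (Z : Type u)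
  [TopologicalSpace Z] [T2Space Z] (f : (Fin k → G) → Z), Continuous f → (Set.range f).Finite →
  ∃ U : Subgroup G, U.Normal ∧ IsOpen (U : Set G) ∧
    ∀ g u : Fin k → G, (∀ i, u i ∈ U) → f (fun i => g i * u i) = f g

/-- A15. normal form of the hypothesis -/
def S_RED : Prop := ∀ (G : Type u) [Group G] [TopologicalSpace G] [IsTopologicalGroup G]
  [CompactSpace G] [T2Space G] [TotallyDisconnectedSpace G], VirtAbByNilp G →
  ∃ (A N : Subgroup G) (_ : A.Normal) (_ : N.Normal), IsClosed (A : Set G) ∧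
    IsOpen (N : Set G) ∧ (∀ a ∈ A, ∀ b ∈ A, a * b = b * a) ∧
    Group.IsNilpotent (N.map (QuotientGroup.mk' A))

/-- A16. the set of values is finite -/
def S_FIN : Prop := ∀ (G : Type u) [Group G] [TopologicalSpace G] [IsTopologicalGroup G]
  [CompactSpace G] [T2Space G] [TotallyDisconnectedSpace G] (A N : Subgroup G) [A.Normal]
  [N.Normal], IsClosed (A : Set G) → IsOpen (N : Set G) → (∀ a ∈ A, ∀ b ∈ A, a * b = b * a) →
  Group.IsNilpotent (N.map (QuotientGroup.mk' A)) → ∀ (k : ℕ) (w : FreeGroup (Fin k)),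
  Cardinal.mk (wordValues w G) < Cardinal.continuum → (wordValues w G).Finite

/-! ## B. from finitely many values to a finite verbal subgroup -/

/-- B1. finitely generated nilpotent groups are noetherian -/
def S_MAX : Prop := ∀ (N : Type u) [Group N] [Group.FG N], Group.IsNilpotent N →
  ∀ H : Subgroup N, H.FG

/-- B2. climbing principle -/
def S_CL : Prop := ∀ (N : Type u) [Group N] [Group.FG N] (A : Subgroup N) [A.Normal],
  Group.IsNilpotent (N ⧸ A) → ∀ P : Subgroup N → Prop, P A →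
  (∀ Δ : Subgroup N, Δ.Normal → A ≤ Δ → P Δ → ∀ z : N, (∀ g, z * g * z⁻¹ * g⁻¹ ∈ Δ) →
    P (Δ ⊔ Subgroup.zpowers z)) → P ⊤

/-- B3. one step of normal finite generation -/
def S_NFS : Prop := ∀ (N : Type u) [Group N] [Group.FG N] (Δ : Subgroup N) (z : N), Δ.Normal →
  (∀ g, z * g * z⁻¹ * g⁻¹ ∈ Δ) →
  (∃ F : Set N, F.Finite ∧ Δ ⊔ Subgroup.zpowers z = Subgroup.normalClosure F) →
  ∃ F : Set N, F.Finite ∧ Δ = Subgroup.normalClosure F

/-- B4. `NN` for a trivial action -/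
def S_NO0 : Prop := ∀ (Γ : Type u) [Group Γ] (Δ : Subgroup Γ) (V : Type u) [AddCommGroup V]
  [DistribMulAction Γ V], (∀ δ ∈ Δ, ∀ v : V, δ • v = v) → NN Δ V

/-- B5. the step (Hilbert's basis theorem) -/
def S_NOS : Prop := ∀ (Γ : Type u) [Group Γ] (Δ : Subgroup Γ) (x : Γ) (V : Type u)
  [AddCommGroup V] [DistribMulAction Γ V], (∀ δ ∈ Δ, x * δ * x⁻¹ ∈ Δ ∧ x⁻¹ * δ * x ∈ Δ) →
  NN Δ V → NN (Δ ⊔ Subgroup.zpowers x) V

/-- B6. (P. Hall) max-n -/
def S_HALL : Prop := ∀ (N : Type u) [Group N] [Group.FG N] (A : Subgroup N) [A.Normal],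
  (∀ a ∈ A, ∀ b ∈ A, a * b = b * a) → Group.IsNilpotent (N ⧸ A) → MaxN N

/-- B7. Fitting's lemma for one element -/
def S_FIT : Prop := ∀ (N : Type u) [Group N] (A B : Subgroup N) [A.Normal], MaxN N →
  (∀ a ∈ A, ∀ b ∈ A, a * b = b * a) → B ≤ Subgroup.center N →
  (∀ K : Subgroup N, K.Normal → K ⊓ B = ⊥ → K = ⊥) →
  ∀ (z : N), (∀ g, ∀ a ∈ A, (z * g * z⁻¹ * g⁻¹) * a = a * (z * g * z⁻¹ * g⁻¹)) →
  ∃ n : ℕ, ∀ a ∈ A, (fun a : N => z * a * z⁻¹ * a⁻¹)^[n] a = 1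

/-- B8. -/
def S_AR : Prop := ∀ (N : Type u) [Group N] [Group.FG N] (A : Subgroup N) [A.Normal],
  (∀ a ∈ A, ∀ b ∈ A, a * b = b * a) → Group.IsNilpotent (N ⧸ A) → MaxN N →
  ∀ B : Subgroup N, B ≤ Subgroup.center N →
  (∀ K : Subgroup N, K.Normal → K ⊓ B = ⊥ → K = ⊥) → Group.IsNilpotent N

/-- B9. -/
def S_NF : Prop := ∀ (N : Type u) [Group N] [Group.FG N], Group.IsNilpotent N →
  ∀ (q : ℕ) [Fact q.Prime] (B : Subgroup N), B ≤ Subgroup.center N → Finite B → IsPGroup q B →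
  (∀ K : Subgroup N, K.Normal → K ⊓ B = ⊥ → K = ⊥) → Finite N ∧ IsPGroup q N

/-- B10. -/
def S_KEY : Prop := ∀ (N : Type u) [Group N] [Group.FG N] (A : Subgroup N) [A.Normal],
  (∀ a ∈ A, ∀ b ∈ A, a * b = b * a) → Group.IsNilpotent (N ⧸ A) →
  ∀ (q : ℕ) [Fact q.Prime] (B : Subgroup N), B ≤ Subgroup.center N → B.FG →
  ∃ (M : Subgroup N) (_ : M.Normal), Finite (N ⧸ M) ∧ IsPGroup q (N ⧸ M) ∧
    ∀ x ∈ B, (x ∈ M ↔ ∃ b ∈ B, x = b ^ q)

/-- B11. (Schur-Zassenhaus) -/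
def S_SZ : Prop := ∀ (G : Type u) [Group G] (k : ℕ) (w : FreeGroup (Fin k)) (N M : Subgroup G)
  [N.Normal] [M.Normal], M ≤ N → N.index ≠ 0 →
  (∀ g u : Fin k → G, (∀ i, u i ∈ N) →
    FreeGroup.lift (fun i => g i * u i) w = FreeGroup.lift g w) →
  ∀ (q a : ℕ), q.Prime → M.relIndex N = q ^ a → ¬ q ∣ N.index →
  ∀ v ∈ verbal w G, v ∈ N → v ∈ M

/-- B12. finitely generated abstract groups -/
def S_ABS : Prop := ∀ (G : Type u) [Group G] [Group.FG G] (k : ℕ) (w : FreeGroup (Fin k))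
  (N : Subgroup G) [N.Normal] (A : Subgroup N) [A.Normal], N.index ≠ 0 →
  (∀ a ∈ A, ∀ b ∈ A, a * b = b * a) → Group.IsNilpotent (N ⧸ A) →
  (∀ g u : Fin k → G, (∀ i, u i ∈ N) →
    FreeGroup.lift (fun i => g i * u i) w = FreeGroup.lift g w) →
  (wordValues w G).Finite → (∀ n ∈ N, ∀ v ∈ wordValues w G, n * v = v * n) →
  (verbal w G : Set G).Finite

/-- B13. profinite groups with finitely many values -/
def S_CON : Prop := ∀ (G : Type u) [Group G] [TopologicalSpace G] [IsTopologicalGroup G]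
  [CompactSpace G] [T2Space G] [TotallyDisconnectedSpace G] (A N : Subgroup G) [A.Normal]
  [N.Normal], IsClosed (A : Set G) → IsOpen (N : Set G) → (∀ a ∈ A, ∀ b ∈ A, a * b = b * a) →
  Group.IsNilpotent (N.map (QuotientGroup.mk' A)) → ∀ (k : ℕ) (w : FreeGroup (Fin k)),
  (wordValues w G).Finite → (verbal w G : Set G).Finite

end Pool.Agent.Helper40.CN
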